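import Mathlib

/-!
Weights on pairs of Boolean vectors: the weight of a rectangle which is below itself in both
lexicographic orders is at most nine times the number of its sides.
-/

set_option autoImplicit false

open Finset

namespace Pool.Agent.H30BC

variable {m : ℕ}

/-- the vectors -/
abbrev Z (m : ℕ) : Type := Fin m → Bool

/-- `z` and `z'` agree outside `[k, l]`, and `z = 0 < 1 = z'` at `k` and at `l` -/
def Cls (k l : Fin m) (z z' : Z m) : Prop :=
  (∀ j < k, z j = z' j) ∧ (∀ j, l < j → z j = z' j) ∧ z k = false ∧ z' k = true ∧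
    z l = false ∧ z' l = true

open Classical in
/-- the weight of a pair -/
noncomputable def wt (z z' : Z m) : ℝ :=
  ∑ k : Fin m, ∑ l : Fin m, if k < l ∧ Cls k l z z' then (1 / 2 : ℝ) ^ ((l : ℕ) - k) else 0

lemma wt_nonneg (z z' : Z m) : 0 ≤ wt z z' := by
  unfold wt
  refine sum_nonneg fun k _ => sum_nonneg fun l _ => ?_
  split_ifs
  · positivity
  · exact le_rfl

lemma exists_cls {z z' : Z m} (h : wt z z' ≠ 0) : ∃ k l, k < l ∧ Cls k l z z' := by
  by_contra hcon
  push Not at hcon
  apply h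
  unfold wt
  refine sum_eq_zero fun k _ => sum_eq_zero fun l _ => ?_
  rw [if_neg]
  rintro ⟨h1, h2⟩
  exact hcon k l h1 h2

/-- the one-dimensional weights -/
noncomputable def g (x : ℕ) (d : ℕ) : ℝ := min ((2 : ℝ) ^ d) ((x : ℝ) ^ 2 * (1 / 2) ^ d)

lemma g_nonneg (x d : ℕ) : 0 ≤ g x d := by unfold g; positivity

lemma g_mono {x y : ℕ} (h : x ≤ y) (d : ℕ) : g x d ≤ g y d := by
  unfold g
  gcongr

lemma sum_g_le (x D : ℕ) : ∑ d ∈ range D, g x d ≤ 4 * x := by
  rcases Nat.eq_zero_or_pos x with rfl | hx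
  · refine le_of_eq ?_
    rw [sum_eq_zero]
    · simp
    · intro d _
      unfold g
      simp
  set p := Nat.log 2 x with hp
  have h1 : 2 ^ p ≤ x := Nat.pow_log_le_self 2 hx.ne'
  have h2 : x < 2 ^ (p + 1) := Nat.lt_pow_succ_log_self (by norm_num) x
  have h1' : (2 : ℝ) ^ p ≤ x := by exact_mod_cast h1
  have h2' : (x : ℝ) < 2 ^ (p + 1) := by exact_mod_cast h2
  have hx' : (1 : ℝ) ≤ x := by exact_mod_cast hx
  have h3 : ∑ d ∈ range D, g x d ≤ ∑ d ∈ range (p + 1 + D), g x d :=
    sum_le_sum_of_subset_of_nonneg (range_mono (by omega)) (fun _ _ _ => g_nonneg _ _)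
  refine h3.trans ?_
  rw [sum_range_add]
  have h4 : ∑ d ∈ range (p + 1), g x d ≤ 2 * x := by
    calc ∑ d ∈ range (p + 1), g x d ≤ ∑ d ∈ range (p + 1), (2 : ℝ) ^ d :=
          sum_le_sum fun d _ => min_le_left _ _
      _ = 2 ^ (p + 1) - 1 := by
          have := geom_sum_eq (x := (2 : ℝ)) (by norm_num) (p + 1)
          rw [this]; norm_num
      _ ≤ 2 * x := by rw [pow_succ]; linarith
  have h5 : ∑ d ∈ range D, g x (p + 1 + d) ≤ 2 * x := by
    calc ∑ d ∈ range D, g x (p + 1 + d)
        ≤ ∑ d ∈ range D, ((x : ℝ) ^ 2 * (1 / 2) ^ (p + 1)) * (1 / 2) ^ d := by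
          refine sum_le_sum fun d _ => (min_le_right _ _).trans (le_of_eq ?_)
          rw [pow_add]; ring
      _ = ((x : ℝ) ^ 2 * (1 / 2) ^ (p + 1)) * ∑ d ∈ range D, (1 / 2 : ℝ) ^ d := by
          rw [mul_sum]
      _ ≤ ((x : ℝ) ^ 2 * (1 / 2) ^ (p + 1)) * 2 := by
          gcongr
          have := geom_sum_eq (x := (1 / 2 : ℝ)) (by norm_num) D
          rw [this]
          have h6 : (0 : ℝ) ≤ (1 / 2) ^ D := by positivity
          rw [div_le_iff_of_neg (by norm_num)]
          linarith
      _ = x * (x * (1 / 2) ^ (p + 1)) * 2 := by ring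
      _ ≤ x * 1 * 2 := by
          gcongr
          rw [one_div, inv_pow, ← div_eq_mul_inv, div_le_one (by positivity)]
          exact h2'.le
      _ = 2 * x := by ring
  linarith

lemma card_box_le {k l : Fin m} (hkl : k < l) (s : Finset (Z m)) (u v : Z m)
    (hs : ∀ z ∈ s, (∀ j ≤ k, z j = u j) ∧ (∀ j, l ≤ j → z j = v j)) :
    (s.card : ℝ) ≤ 2 ^ ((l : ℕ) - k) := by
  have h1 : s ⊆ Fintype.piFinset (fun j : Fin m =>
      if j ≤ k then {u j} else if l ≤ j then {v j} else (univ : Finset Bool)) := by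
    intro z hz
    rw [Fintype.mem_piFinset]
    intro j
    obtain ⟨h2, h3⟩ := hs z hz
    by_cases hj : j ≤ k
    · rw [if_pos hj, mem_singleton]; exact h2 j hj
    · rw [if_neg hj]
      by_cases hj' : l ≤ j
      · rw [if_pos hj', mem_singleton]; exact h3 j hj'
      · rw [if_neg hj']; exact mem_univ _
  have h2 := card_le_card h1
  rw [Fintype.card_piFinset] at h2
  have h3 : ∏ j : Fin m, (if j ≤ k then ({u j} : Finset Bool) else if l ≤ j then {v j}
      else (univ : Finset Bool)).card ≤ 2 ^ ((l : ℕ) - k) := by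
    calc ∏ j : Fin m, (if j ≤ k then ({u j} : Finset Bool) else if l ≤ j then {v j}
      else (univ : Finset Bool)).card
        ≤ ∏ j : Fin m, (if j ∈ Ioo k l then 2 else 1) := by
          refine prod_le_prod' fun j _ => ?_
          by_cases hj : j ≤ k
          · rw [if_pos hj, card_singleton]; split_ifs <;> norm_num
          · rw [if_neg hj]
            by_cases hj' : l ≤ j
            · rw [if_pos hj', card_singleton]; split_ifs <;> norm_num
            · rw [if_neg hj', if_pos (mem_Ioo.2 ⟨not_le.1 hj, not_le.1 hj'⟩)]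
              simp
      _ = 2 ^ (Ioo k l).card := by
          rw [prod_ite_mem, univ_inter, prod_const]
      _ ≤ 2 ^ ((l : ℕ) - k) := by
          rw [Fin.card_Ioo]
          exact Nat.pow_le_pow_right (by norm_num) (by omega)
  exact_mod_cast h2.trans h3

end Pool.Agent.H30BC
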