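import Mathlib
import Pool.Agent.H30BC.Weight

/-!
The two lexicographic orders on Boolean vectors, as numberings.
-/

set_option autoImplicit false

open Finset

namespace Pool.Agent.H30BC

variable {m : ℕ}

/-- the lexicographic order -/
def o1 (z : Z m) : Lex (Fin m → Bool) := toLex z

/-- the lexicographic order from the right -/
def o2 (z : Z m) : Lex ((Fin m)ᵒᵈ → Bool) := toLex (fun i => z (OrderDual.ofDual i))

lemma o1_lt (x y : Z m) (j : Fin m) (h : ∀ i, i < j → x i = y i) (hx : x j = false)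
    (hy : y j = true) : o1 x < o1 y := by
  refine ⟨j, fun i hi => h i hi, ?_⟩
  show x j < y j
  rw [hx, hy]; decide

lemma o2_lt (x y : Z m) (j : Fin m) (h : ∀ i, i > j → x i = y i) (hx : x j = false)
    (hy : y j = true) : o2 x < o2 y := by
  refine ⟨OrderDual.toDual j, fun i hi => h _ (OrderDual.lt_toDual.1 hi), ?_⟩
  show x j < y j
  rw [hx, hy]; decide

lemma o1_inj : Function.Injective (o1 (m := m)) := fun _ _ h => toLex.injective h

lemma o2_inj : Function.Injective (o2 (m := m)) := by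
  intro x y h
  have h1 : (fun i => x (OrderDual.ofDual i)) = fun i => y (OrderDual.ofDual i) :=
    toLex.injective h
  funext i
  exact congrFun h1 (OrderDual.toDual i)

lemma exists_num (m : ℕ) : ∃ (r c : Z m → ℕ), (∀ z, r z < 2 ^ m) ∧ (∀ z, c z < 2 ^ m) ∧
    (∀ z z', r z < r z' ↔ o1 z < o1 z') ∧ (∀ z z', c z < c z' ↔ o2 z < o2 z') := by
  have h1 : Fintype.card (Lex (Fin m → Bool)) = 2 ^ m := by
    have : Fintype.card (Lex (Fin m → Bool)) = Fintype.card (Fin m → Bool) :=
      Fintype.card_congr toLex.symm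
    rw [this]; simp
  have h2 : Fintype.card (Lex ((Fin m)ᵒᵈ → Bool)) = 2 ^ m := by
    have : Fintype.card (Lex ((Fin m)ᵒᵈ → Bool)) = Fintype.card ((Fin m)ᵒᵈ → Bool) :=
      Fintype.card_congr toLex.symm
    rw [this]; simp
  let f1 := Fintype.orderIsoFinOfCardEq _ h1
  let f2 := Fintype.orderIsoFinOfCardEq _ h2
  refine ⟨fun z => f1.symm (o1 z), fun z => f2.symm (o2 z), fun z => (f1.symm (o1 z)).2,
    fun z => (f2.symm (o2 z)).2, fun z z' => ?_, fun z z' => ?_⟩
  · show f1.symm (o1 z) < f1.symm (o1 z') ↔ _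
    exact f1.symm.lt_iff_lt
  · show f2.symm (o2 z) < f2.symm (o2 z') ↔ _
    exact f2.symm.lt_iff_lt

end Pool.Agent.H30BC
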