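import Pool.Agent.H30BC.Weight

/-!
The weight of a rectangle `A × B` with `A` below `B` in both orders is at most `9 (|A| + |B|)`.
-/

set_option autoImplicit false

open Finset

namespace Pool.Agent.H30BC

lemma trunc {ι β : Type*} [LinearOrder β] (r : ι → ι → Prop) (wf : WellFounded r)
    (htr : ∀ a b c, r a b → r b c → r a c) (o : (ι → Bool) → β)
    (h : ∀ x y j, (∀ i, r i j → x i = y i) → x j = false → y j = true → o x < o y)
    {z t z' : ι → Bool} (h1 : o z ≤ o t) (h2 : o t ≤ o z') {k : ι}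
    (hk : ∀ j, r j k → z j = z' j) : ∀ j, r j k → t j = z j := by
  intro j
  induction j using wf.induction with
  | _ j ih =>
    intro hj
    by_contra hne
    rcases hz : z j with _ | _
    · have ht : t j = true := by
        rcases ht : t j with _ | _
        · exact absurd (ht.trans hz.symm) hne
        · rfl
      refine absurd (h z' t j (fun i hi => ?_) ((hk j hj).symm.trans hz) ht) (not_lt.2 h2)
      rw [ih i hi (htr _ _ _ hi hj), hk i (htr _ _ _ hi hj)]
    · have ht : t j = false := by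
        rcases ht : t j with _ | _
        · rfl
        · exact absurd (ht.trans hz.symm) hne
      refine absurd (h t z j (fun i hi => ?_) ht hz) (not_lt.2 h1)
      exact ih i hi (htr _ _ _ hi hj)

lemma sum_card_filter_le {α ι : Type*} [Fintype ι] (A : Finset α) (P : ι → α → Prop)
    [∀ i, DecidablePred (P i)] (hP : ∀ a i j, P i a → P j a → i = j) :
    ∑ i, (A.filter (P i)).card ≤ A.card := by
  classical
  calc ∑ i, (A.filter (P i)).card = ∑ i, ∑ a ∈ A, if P i a then 1 else 0 := by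
        refine sum_congr rfl fun i _ => ?_
        rw [card_filter]
    _ = ∑ a ∈ A, ∑ i, if P i a then 1 else 0 := sum_comm
    _ ≤ ∑ a ∈ A, 1 := by
        refine sum_le_sum fun a _ => ?_
        rw [← card_filter, card_le_one]
        intro i hi j hj
        exact hP a i j (mem_filter.1 hi).2 (mem_filter.1 hj).2
    _ = A.card := by simp

variable {m : ℕ}

lemma sum_shift1 (x : ℕ) (k : Fin m) :
    ∑ l : Fin m, (if k < l then g x ((l : ℕ) - k) else 0) ≤ 4 * x := by
  classical
  rw [← sum_filter]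
  have hinj : Set.InjOn (fun l : Fin m => (l : ℕ) - k)
      (univ.filter (fun l : Fin m => k < l) : Finset (Fin m)) := by
    intro a ha b hb hab
    have ha' : k < a := (mem_filter.1 (mem_coe.1 ha)).2
    have hb' : k < b := (mem_filter.1 (mem_coe.1 hb)).2
    have ha2 : (k : ℕ) < a := ha'
    have hb2 : (k : ℕ) < b := hb'
    apply Fin.ext
    simp only at hab
    omega
  rw [← sum_image (f := fun d => g x d) (g := fun l : Fin m => (l : ℕ) - k) hinj]
  refine (sum_le_sum_of_subset_of_nonneg (t := range m) ?_ (fun _ _ _ => g_nonneg _ _)).trans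
    (sum_g_le x m)
  intro d hd
  obtain ⟨l, -, rfl⟩ := mem_image.1 hd
  rw [mem_range]
  have := l.2
  omega

lemma sum_shift2 (x : ℕ) (l : Fin m) :
    ∑ k : Fin m, (if k < l then g x ((l : ℕ) - k) else 0) ≤ 4 * x := by
  classical
  rw [← sum_filter]
  have hinj : Set.InjOn (fun k : Fin m => (l : ℕ) - k)
      (univ.filter (fun k : Fin m => k < l) : Finset (Fin m)) := by
    intro a ha b hb hab
    have ha' : a < l := (mem_filter.1 (mem_coe.1 ha)).2
    have hb' : b < l := (mem_filter.1 (mem_coe.1 hb)).2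
    have ha2 : (a : ℕ) < l := ha'
    have hb2 : (b : ℕ) < l := hb'
    apply Fin.ext
    simp only at hab
    omega
  rw [← sum_image (f := fun d => g x d) (g := fun k : Fin m => (l : ℕ) - k) hinj]
  refine (sum_le_sum_of_subset_of_nonneg (t := range m) ?_ (fun _ _ _ => g_nonneg _ _)).trans
    (sum_g_le x m)
  intro d hd
  obtain ⟨k, -, rfl⟩ := mem_image.1 hd
  rw [mem_range]
  have := l.2
  omega

lemma prod_le_g {d a b : ℕ} {s u : ℝ} (hs0 : 0 ≤ s) (hu0 : 0 ≤ u) (hs : s ≤ 2 ^ d)
    (hu : u ≤ 2 ^ d) (hsa : s ≤ a) (hub : u ≤ b) :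
    (1 / 2 : ℝ) ^ d * (s * u) ≤ g a d + g b d := by
  have h1 : (1 / 2 : ℝ) ^ d * (s * u) ≤ g (max a b) d := by
    unfold g
    refine le_min ?_ ?_
    · calc (1 / 2 : ℝ) ^ d * (s * u) ≤ (1 / 2 : ℝ) ^ d * (2 ^ d * 2 ^ d) := by gcongr
        _ = ((1 / 2 : ℝ) * 2) ^ d * 2 ^ d := by rw [mul_pow]; ring
        _ = 2 ^ d := by norm_num
    · have ha : (a : ℝ) ≤ ((max a b : ℕ) : ℝ) := by exact_mod_cast le_max_left a b
      have hb : (b : ℝ) ≤ ((max a b : ℕ) : ℝ) := by exact_mod_cast le_max_right a b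
      calc (1 / 2 : ℝ) ^ d * (s * u)
          ≤ (1 / 2 : ℝ) ^ d * (((max a b : ℕ) : ℝ) * ((max a b : ℕ) : ℝ)) := by
            have := hsa.trans ha
            have := hub.trans hb
            gcongr
        _ = _ := by ring
  refine h1.trans ?_
  rcases le_total a b with h | h
  · rw [max_eq_right h]
    linarith [g_nonneg a d]
  · rw [max_eq_left h]
    linarith [g_nonneg b d]

lemma one_le_of_half {d : ℕ} {s u : ℝ} (hs0 : 0 ≤ s) (hu : u ≤ 2 ^ d) :
    (1 / 2 : ℝ) ^ d * (s * u) ≤ s := by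
  calc (1 / 2 : ℝ) ^ d * (s * u) ≤ (1 / 2 : ℝ) ^ d * (s * 2 ^ d) := by gcongr
    _ = ((1 / 2 : ℝ) * 2) ^ d * s := by rw [mul_pow]; ring
    _ = s := by norm_num

lemma sum4_comm {α κ : Type*} [Fintype κ] (A B : Finset α) (F : α → α → κ → κ → ℝ) :
    ∑ z ∈ A, ∑ z' ∈ B, ∑ k, ∑ l, F z z' k l = ∑ k, ∑ l, ∑ z ∈ A, ∑ z' ∈ B, F z z' k l := by
  calc _ = ∑ z ∈ A, ∑ k, ∑ z' ∈ B, ∑ l, F z z' k l :=
        sum_congr rfl fun z _ => sum_comm
    _ = ∑ z ∈ A, ∑ k, ∑ l, ∑ z' ∈ B, F z z' k l :=
        sum_congr rfl fun z _ => sum_congr rfl fun k _ => sum_comm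
    _ = ∑ k, ∑ z ∈ A, ∑ l, ∑ z' ∈ B, F z z' k l := sum_comm
    _ = _ := sum_congr rfl fun k _ => sum_comm

lemma ne_of_true {a b : Bool} (ha : a = false) (hb : b = true) : a ≠ b := by
  rw [ha, hb]; decide

lemma ne_of_false {a b : Bool} (ha : a = true) (hb : b = false) : a ≠ b := by
  rw [ha, hb]; decide

theorem weight_le {β γ : Type*} [LinearOrder β] [LinearOrder γ] (o1 : Z m → β) (o2 : Z m → γ)
    (h1 : ∀ x y j, (∀ i, i < j → x i = y i) → x j = false → y j = true → o1 x < o1 y)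
    (h2 : ∀ x y j, (∀ i, i > j → x i = y i) → x j = false → y j = true → o2 x < o2 y)
    (A B : Finset (Z m)) (hAB : ∀ z ∈ A, ∀ z' ∈ B, o1 z ≤ o1 z' ∧ o2 z ≤ o2 z') :
    ∑ z ∈ A, ∑ z' ∈ B, wt z z' ≤ 9 * ((A.card : ℝ) + B.card) := by
  classical
  rcases A.eq_empty_or_nonempty with rfl | hne
  · simp only [sum_empty, card_empty, Nat.cast_zero, zero_add]
    positivity
  obtain ⟨t, htA, ht⟩ := A.exists_max_image o1 hne
  obtain ⟨τ, hτA, hτ⟩ := A.exists_max_image o2 hne
  set S : Fin m → Fin m → Finset (Z m) := fun k l => A.filter (fun z =>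
    ((∀ j, j < k → z j = t j) ∧ z k = false) ∧ (∀ j, j > l → z j = τ j) ∧ z l = false) with hS
  set T : Fin m → Fin m → Finset (Z m) := fun k l => B.filter (fun z =>
    ((∀ j, j < k → z j = t j) ∧ z k = true) ∧ (∀ j, j > l → z j = τ j) ∧ z l = true) with hT
  set P1 : Fin m → Z m → Prop := fun k z => (∀ j, j < k → z j = t j) ∧ z k ≠ t k with hP1
  set P2 : Fin m → Z m → Prop := fun l z => (∀ j, j > l → z j = τ j) ∧ z l ≠ τ l with hP2
  have u1 : ∀ a i j, P1 i a → P1 j a → i = j := by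
    intro a i j hi hj
    rcases lt_trichotomy i j with h | h | h
    · exact absurd (hj.1 i h) hi.2
    · exact h
    · exact absurd (hi.1 j h) hj.2
  have u2 : ∀ a i j, P2 i a → P2 j a → i = j := by
    intro a i j hi hj
    rcases lt_trichotomy i j with h | h | h
    · exact absurd (hi.1 j h) hj.2
    · exact h
    · exact absurd (hj.1 i h) hi.2
  -- the two-index predicate
  have u12 : ∀ (a : Z m) (i j : Fin m × Fin m), (P1 i.1 a ∧ P2 i.2 a) → (P1 j.1 a ∧ P2 j.2 a) →
      i = j := fun a i j hi hj => Prod.ext (u1 a _ _ hi.1 hj.1) (u2 a _ _ hi.2 hj.2)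
  -- the bound for the pair of indices
  have hterm : ∀ k l : Fin m, k < l →
      (1 / 2 : ℝ) ^ ((l : ℕ) - k) * (((S k l).card : ℝ) * (T k l).card) ≤
      ((A.filter (fun a => P1 k a ∧ P2 l a)).card : ℝ) +
      ((B.filter (fun a => P1 k a ∧ P2 l a)).card : ℝ) +
      g (A.filter (P1 k)).card ((l : ℕ) - k) + g (B.filter (P1 k)).card ((l : ℕ) - k) +
      g (A.filter (P2 l)).card ((l : ℕ) - k) + g (B.filter (P2 l)).card ((l : ℕ) - k) := by
    intro k l hkl
    have cS : ((S k l).card : ℝ) ≤ 2 ^ ((l : ℕ) - k) := by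
      refine card_box_le hkl _ (fun j => if j < k then t j else false)
        (fun j => if j > l then τ j else false) fun z hz => ?_
      obtain ⟨-, ⟨q1, q2⟩, q3, q4⟩ := mem_filter.1 hz
      refine ⟨fun j hj => ?_, fun j hj => ?_⟩
      · rcases hj.lt_or_eq with hj | rfl
        · simp only [if_pos hj]; exact q1 j hj
        · simp only [lt_irrefl, if_false]; exact q2
      · rcases hj.lt_or_eq with hj | rfl
        · simp only [gt_iff_lt, if_pos hj]; exact q3 j hj
        · simp only [gt_iff_lt, lt_irrefl, if_false]; exact q4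
    have cT : ((T k l).card : ℝ) ≤ 2 ^ ((l : ℕ) - k) := by
      refine card_box_le hkl _ (fun j => if j < k then t j else true)
        (fun j => if j > l then τ j else true) fun z hz => ?_
      obtain ⟨-, ⟨q1, q2⟩, q3, q4⟩ := mem_filter.1 hz
      refine ⟨fun j hj => ?_, fun j hj => ?_⟩
      · rcases hj.lt_or_eq with hj | rfl
        · simp only [if_pos hj]; exact q1 j hj
        · simp only [lt_irrefl, if_false]; exact q2
      · rcases hj.lt_or_eq with hj | rfl
        · simp only [gt_iff_lt, if_pos hj]; exact q3 j hj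
        · simp only [gt_iff_lt, lt_irrefl, if_false]; exact q4
    have p1 := g_nonneg (A.filter (P1 k)).card ((l : ℕ) - k)
    have p2 := g_nonneg (B.filter (P1 k)).card ((l : ℕ) - k)
    have p3 := g_nonneg (A.filter (P2 l)).card ((l : ℕ) - k)
    have p4 := g_nonneg (B.filter (P2 l)).card ((l : ℕ) - k)
    have p5 : (0 : ℝ) ≤ ((A.filter (fun a => P1 k a ∧ P2 l a)).card : ℝ) := by positivity
    have p6 : (0 : ℝ) ≤ ((B.filter (fun a => P1 k a ∧ P2 l a)).card : ℝ) := by positivity
    have cast_le : ∀ {s s' : Finset (Z m)}, s ⊆ s' → (s.card : ℝ) ≤ s'.card :=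
      fun h => by exact_mod_cast card_le_card h
    have hbool : ∀ b : Bool, b = false ∨ b = true := by decide
    rcases hbool (t k) with htk | htk <;> rcases hbool (τ l) with hτl | hτl
    · -- `T ⊆ b1 ∩ b2`
      have hsub : T k l ⊆ B.filter (fun a => P1 k a ∧ P2 l a) := by
        intro z hz
        obtain ⟨hz0, ⟨q1, q2⟩, q3, q4⟩ := mem_filter.1 hz
        exact mem_filter.2 ⟨hz0, ⟨q1, ne_of_false q2 htk⟩, q3, ne_of_false q4 hτl⟩
      have h3 := one_le_of_half (d := (l : ℕ) - k) (s := ((T k l).card : ℝ)) (by positivity) cS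
      rw [mul_comm ((T k l).card : ℝ)] at h3
      have h4 := cast_le hsub
      linarith
    · -- `T ⊆ b1`, `S ⊆ a2`
      have hsub1 : T k l ⊆ B.filter (P1 k) := by
        intro z hz
        obtain ⟨hz0, ⟨q1, q2⟩, q3, q4⟩ := mem_filter.1 hz
        exact mem_filter.2 ⟨hz0, q1, ne_of_false q2 htk⟩
      have hsub2 : S k l ⊆ A.filter (P2 l) := by
        intro z hz
        obtain ⟨hz0, ⟨q1, q2⟩, q3, q4⟩ := mem_filter.1 hz
        exact mem_filter.2 ⟨hz0, q3, ne_of_true q4 hτl⟩
      have h3 := prod_le_g (by positivity) (by positivity) cS cT (cast_le hsub2) (cast_le hsub1)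
      linarith
    · -- `S ⊆ a1`, `T ⊆ b2`
      have hsub1 : S k l ⊆ A.filter (P1 k) := by
        intro z hz
        obtain ⟨hz0, ⟨q1, q2⟩, q3, q4⟩ := mem_filter.1 hz
        exact mem_filter.2 ⟨hz0, q1, ne_of_true q2 htk⟩
      have hsub2 : T k l ⊆ B.filter (P2 l) := by
        intro z hz
        obtain ⟨hz0, ⟨q1, q2⟩, q3, q4⟩ := mem_filter.1 hz
        exact mem_filter.2 ⟨hz0, q3, ne_of_false q4 hτl⟩
      have h3 := prod_le_g (by positivity) (by positivity) cS cT (cast_le hsub1) (cast_le hsub2)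
      linarith
    · -- `S ⊆ a1 ∩ a2`
      have hsub : S k l ⊆ A.filter (fun a => P1 k a ∧ P2 l a) := by
        intro z hz
        obtain ⟨hz0, ⟨q1, q2⟩, q3, q4⟩ := mem_filter.1 hz
        exact mem_filter.2 ⟨hz0, ⟨q1, ne_of_true q2 htk⟩, q3, ne_of_true q4 hτl⟩
      have h3 := one_le_of_half (d := (l : ℕ) - k) (s := ((S k l).card : ℝ)) (by positivity) cT
      have h4 := cast_le hsub
      linarith
  -- reordering the sum
  have hswap : ∑ z ∈ A, ∑ z' ∈ B, wt z z' ≤ ∑ k : Fin m, ∑ l : Fin m, (if k < l then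
      (1 / 2 : ℝ) ^ ((l : ℕ) - k) * (((S k l).card : ℝ) * (T k l).card) else 0) := by
    have e1 : ∑ z ∈ A, ∑ z' ∈ B, wt z z' = ∑ k : Fin m, ∑ l : Fin m, ∑ z ∈ A, ∑ z' ∈ B,
        (if k < l ∧ Cls k l z z' then (1 / 2 : ℝ) ^ ((l : ℕ) - k) else 0) := by
      exact sum4_comm A B _
    rw [e1]
    refine sum_le_sum fun k _ => sum_le_sum fun l _ => ?_
    by_cases hkl : k < l
    · rw [if_pos hkl]
      have e2 : ∀ z ∈ A, ∀ z' ∈ B,
          (if k < l ∧ Cls k l z z' then (1 / 2 : ℝ) ^ ((l : ℕ) - k) else 0) ≤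
          (1 / 2 : ℝ) ^ ((l : ℕ) - k) * ((if z ∈ S k l then 1 else 0) *
            (if z' ∈ T k l then 1 else 0)) := by
        intro z hz z' hz'
        by_cases hc : Cls k l z z'
        · obtain ⟨c1, c2, c3, c4, c5, c6⟩ := hc
          have f1 : ∀ j, j < k → t j = z j :=
            trunc (· < ·) wellFounded_lt (fun _ _ _ => lt_trans) o1 h1 (ht z hz)
              (hAB t htA z' hz').1 c1
          have f2 : ∀ j, j > l → τ j = z j :=
            trunc (· > ·) wellFounded_gt (fun _ _ _ => gt_trans) o2 h2 (hτ z hz)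
              (hAB τ hτA z' hz').2 c2
          have hzS : z ∈ S k l := mem_filter.2 ⟨hz, ⟨fun j hj => (f1 j hj).symm, c3⟩,
            fun j hj => (f2 j hj).symm, c5⟩
          have hzT : z' ∈ T k l := mem_filter.2 ⟨hz', ⟨fun j hj => (c1 j hj).symm.trans
            (f1 j hj).symm, c4⟩, fun j hj => (c2 j hj).symm.trans (f2 j hj).symm, c6⟩
          rw [if_pos ⟨hkl, c1, c2, c3, c4, c5, c6⟩, if_pos hzS, if_pos hzT]
          simp
        · rw [if_neg (fun h => hc h.2)]
          positivity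
      refine (sum_le_sum fun z hz => sum_le_sum fun z' hz' => e2 z hz z' hz').trans (le_of_eq ?_)
      simp only [← mul_sum]
      congr 1
      rw [← sum_mul]
      congr 1
      · rw [sum_ite_mem, sum_const, nsmul_eq_mul, mul_one,
          inter_eq_right.2 (filter_subset _ _)]
      · rw [sum_ite_mem, sum_const, nsmul_eq_mul, mul_one,
          inter_eq_right.2 (filter_subset _ _)]
    · rw [if_neg hkl]
      refine le_of_eq (sum_eq_zero fun z _ => sum_eq_zero fun z' _ => ?_)
      rw [if_neg (fun h => hkl h.1)]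
  refine hswap.trans ?_
  have hbound : ∑ k : Fin m, ∑ l : Fin m, (if k < l then
      (1 / 2 : ℝ) ^ ((l : ℕ) - k) * (((S k l).card : ℝ) * (T k l).card) else 0) ≤
      ∑ k : Fin m, ∑ l : Fin m, (((A.filter (fun a => P1 k a ∧ P2 l a)).card : ℝ) +
      ((B.filter (fun a => P1 k a ∧ P2 l a)).card : ℝ) +
      (if k < l then g (A.filter (P1 k)).card ((l : ℕ) - k) else 0) +
      (if k < l then g (B.filter (P1 k)).card ((l : ℕ) - k) else 0) +
      (if k < l then g (A.filter (P2 l)).card ((l : ℕ) - k) else 0) +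
      (if k < l then g (B.filter (P2 l)).card ((l : ℕ) - k) else 0)) := by
    refine sum_le_sum fun k _ => sum_le_sum fun l _ => ?_
    by_cases hkl : k < l
    · simp only [if_pos hkl]
      exact hterm k l hkl
    · simp only [if_neg hkl]
      positivity
  refine hbound.trans ?_
  simp only [sum_add_distrib]
  have s12 : ∀ (C : Finset (Z m)), ∑ k : Fin m, ∑ l : Fin m,
      ((C.filter (fun a => P1 k a ∧ P2 l a)).card : ℝ) ≤ C.card := by
    intro C
    have := sum_card_filter_le C (fun (i : Fin m × Fin m) a => P1 i.1 a ∧ P2 i.2 a) u12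
    rw [Fintype.sum_prod_type] at this
    exact_mod_cast this
  have s1 : ∀ (C : Finset (Z m)), ∑ k : Fin m, ∑ l : Fin m,
      (if k < l then g (C.filter (P1 k)).card ((l : ℕ) - k) else 0) ≤ 4 * C.card := by
    intro C
    have h3 := sum_card_filter_le C P1 u1
    have h3' : ∑ k : Fin m, ((C.filter (P1 k)).card : ℝ) ≤ C.card := by exact_mod_cast h3
    calc _ ≤ ∑ k : Fin m, 4 * ((C.filter (P1 k)).card : ℝ) := sum_le_sum fun k _ => sum_shift1 _ k
      _ = 4 * ∑ k : Fin m, ((C.filter (P1 k)).card : ℝ) := by rw [mul_sum]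
      _ ≤ _ := by linarith
  have s2 : ∀ (C : Finset (Z m)), ∑ k : Fin m, ∑ l : Fin m,
      (if k < l then g (C.filter (P2 l)).card ((l : ℕ) - k) else 0) ≤ 4 * C.card := by
    intro C
    have h3 := sum_card_filter_le C P2 u2
    have h3' : ∑ k : Fin m, ((C.filter (P2 k)).card : ℝ) ≤ C.card := by exact_mod_cast h3
    rw [sum_comm]
    calc _ ≤ ∑ l : Fin m, 4 * ((C.filter (P2 l)).card : ℝ) := sum_le_sum fun l _ => sum_shift2 _ l
      _ = 4 * ∑ k : Fin m, ((C.filter (P2 k)).card : ℝ) := by rw [mul_sum]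
      _ ≤ _ := by linarith
  have := s12 A
  have := s12 B
  have := s1 A
  have := s1 B
  have := s2 A
  have := s2 B
  linarith

end Pool.Agent.H30BC
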