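import Pool.Agent.H30BC.Weight

/-!
The total weight of all pairs of Boolean vectors.
-/

set_option autoImplicit false

open Finset

namespace Pool.Agent.H30BC

variable {m : ℕ}

open Classical in
lemma card_above {k l : Fin m} (hkl : k < l) {z : Z m} (hk : z k = false) (hl : z l = false) :
    (2 : ℝ) ^ ((l : ℕ) - k) ≤ 2 * ((univ.filter (fun z' => Cls k l z z')).card : ℝ) := by
  have h1 : Fintype.piFinset (fun j : Fin m =>
      if j ∈ Ioo k l then (univ : Finset Bool) else if j = k ∨ j = l then {true} else {z j}) ⊆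
      univ.filter (fun z' => Cls k l z z') := by
    intro z' hz'
    rw [Fintype.mem_piFinset] at hz'
    rw [mem_filter]
    have hout : ∀ j, (j < k ∨ l < j) → z j = z' j := by
      intro j hj
      have h2 := hz' j
      have h3 : j ∉ Ioo k l := by
        rw [mem_Ioo]
        rintro ⟨h4, h5⟩
        rcases hj with hj | hj
        · exact absurd (h4.trans hj) (lt_irrefl _)
        · exact absurd (h5.trans hj) (lt_irrefl _)
      have h4 : ¬ (j = k ∨ j = l) := by
        rintro (rfl | rfl)
        · rcases hj with hj | hj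
          · exact lt_irrefl _ hj
          · exact absurd (hkl.trans hj) (lt_irrefl _)
        · rcases hj with hj | hj
          · exact absurd (hkl.trans hj) (lt_irrefl _)
          · exact lt_irrefl _ hj
      rw [if_neg h3, if_neg h4, mem_singleton] at h2
      exact h2.symm
    refine ⟨mem_univ _, fun j hj => hout j (Or.inl hj), fun j hj => hout j (Or.inr hj), hk, ?_,
      hl, ?_⟩
    · have h2 := hz' k
      rw [if_neg (by simp), if_pos (Or.inl rfl), mem_singleton] at h2
      exact h2
    · have h2 := hz' l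
      rw [if_neg (by simp), if_pos (Or.inr rfl), mem_singleton] at h2
      exact h2
  have h2 := card_le_card h1
  rw [Fintype.card_piFinset] at h2
  have h3 : ∏ j : Fin m, (if j ∈ Ioo k l then (univ : Finset Bool) else if j = k ∨ j = l then {true}
      else {z j}).card = 2 ^ ((l : ℕ) - k - 1) := by
    calc _ = ∏ j : Fin m, (if j ∈ Ioo k l then 2 else 1) := by
          refine prod_congr rfl fun j _ => ?_
          by_cases hj : j ∈ Ioo k l
          · rw [if_pos hj, if_pos hj]; simp
          · rw [if_neg hj, if_neg hj]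
            split_ifs <;> simp
      _ = 2 ^ (Ioo k l).card := by rw [prod_ite_mem, univ_inter, prod_const]
      _ = _ := by rw [Fin.card_Ioo]
  rw [h3] at h2
  have h4 : (2 : ℝ) ^ ((l : ℕ) - k - 1) ≤ ((univ.filter (fun z' => Cls k l z z')).card : ℝ) := by
    exact_mod_cast h2
  have h5 : (l : ℕ) - k = ((l : ℕ) - k - 1) + 1 := by
    have : (k : ℕ) < l := hkl
    omega
  rw [h5, pow_succ]
  linarith

lemma card_zero {k l : Fin m} (hkl : k < l) :
    (2 : ℝ) ^ m ≤ 4 * ((univ.filter (fun z : Z m => z k = false ∧ z l = false)).card : ℝ) := by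
  have h1 : Fintype.piFinset (fun j : Fin m =>
      if j ∈ ({k, l} : Finset (Fin m)) then {false} else (univ : Finset Bool)) ⊆
      univ.filter (fun z : Z m => z k = false ∧ z l = false) := by
    intro z' hz'
    rw [Fintype.mem_piFinset] at hz'
    rw [mem_filter]
    refine ⟨mem_univ _, ?_, ?_⟩
    · have h2 := hz' k
      rw [if_pos (by simp), mem_singleton] at h2
      exact h2
    · have h2 := hz' l
      rw [if_pos (by simp), mem_singleton] at h2
      exact h2
  have h2 := card_le_card h1
  rw [Fintype.card_piFinset] at h2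
  have h3 : ∏ j : Fin m, (if j ∈ ({k, l} : Finset (Fin m)) then {false}
      else (univ : Finset Bool)).card = 2 ^ (m - 2) := by
    calc _ = ∏ j : Fin m, (if j ∈ ({k, l} : Finset (Fin m))ᶜ then 2 else 1) := by
          refine prod_congr rfl fun j _ => ?_
          by_cases hj : j ∈ ({k, l} : Finset (Fin m))
          · rw [if_pos hj, if_neg (fun h => mem_compl.1 h hj)]; simp
          · rw [if_neg hj, if_pos (mem_compl.2 hj)]; simp
      _ = 2 ^ (({k, l} : Finset (Fin m))ᶜ).card := by rw [prod_ite_mem, univ_inter, prod_const]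
      _ = _ := by
          rw [card_compl, Fintype.card_fin, card_pair hkl.ne]
  rw [h3] at h2
  have h4 : (2 : ℝ) ^ (m - 2) ≤
      ((univ.filter (fun z : Z m => z k = false ∧ z l = false)).card : ℝ) := by
    exact_mod_cast h2
  have h5 : m = (m - 2) + 2 := by
    have : (k : ℕ) < l := hkl
    have := l.2
    omega
  have h6 : (2 : ℝ) ^ m = 2 ^ (m - 2) * 4 := by
    conv_lhs => rw [h5]
    rw [pow_add]; norm_num
  rw [h6]
  linarith

lemma sum_lt (c : ℝ) : ∑ k : Fin m, ∑ l : Fin m, (if k < l then c else 0) =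
    c * (m * (m - 1) / 2) := by
  classical
  rw [sum_comm]
  have h1 : ∀ l : Fin m, ∑ k : Fin m, (if k < l then c else 0) = c * (l : ℕ) := by
    intro l
    rw [← sum_filter, sum_const, nsmul_eq_mul, mul_comm]
    congr 2
    have : univ.filter (fun k : Fin m => k < l) = Iio l := by ext; simp
    rw [this, Fin.card_Iio]
  simp only [h1]
  rw [← mul_sum]
  congr 1
  rw [Fin.sum_univ_eq_sum_range (fun i => (i : ℝ)) m]
  induction m with
  | zero => simp
  | succ n ih =>
    rw [sum_range_succ]
    have h2 : ∑ i ∈ range n, (i : ℝ) = n * (n - 1) / 2 := by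
      clear ih h1
      induction n with
      | zero => simp
      | succ n ih => rw [sum_range_succ, ih]; push_cast; ring
    rw [h2]; push_cast; ring

theorem total_weight : (2 : ℝ) ^ m * (m * (m - 1)) / 16 ≤ ∑ z : Z m, ∑ z' : Z m, wt z z' := by
  classical
  have e1 : ∑ z : Z m, ∑ z' : Z m, wt z z' = ∑ k : Fin m, ∑ l : Fin m, ∑ z : Z m, ∑ z' : Z m,
      (if k < l ∧ Cls k l z z' then (1 / 2 : ℝ) ^ ((l : ℕ) - k) else 0) := by
    calc _ = ∑ z : Z m, ∑ k : Fin m, ∑ z' : Z m, ∑ l : Fin m,
        (if k < l ∧ Cls k l z z' then (1 / 2 : ℝ) ^ ((l : ℕ) - k) else 0) := by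
          refine sum_congr rfl fun z _ => ?_
          unfold wt
          rw [sum_comm]
      _ = ∑ z : Z m, ∑ k : Fin m, ∑ l : Fin m, ∑ z' : Z m,
        (if k < l ∧ Cls k l z z' then (1 / 2 : ℝ) ^ ((l : ℕ) - k) else 0) :=
          sum_congr rfl fun z _ => sum_congr rfl fun k _ => sum_comm
      _ = ∑ k : Fin m, ∑ z : Z m, ∑ l : Fin m, ∑ z' : Z m,
        (if k < l ∧ Cls k l z z' then (1 / 2 : ℝ) ^ ((l : ℕ) - k) else 0) := sum_comm
      _ = _ := sum_congr rfl fun k _ => sum_comm
  rw [e1]
  have e2 : (2 : ℝ) ^ m * (m * (m - 1)) / 16 =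
      ∑ k : Fin m, ∑ l : Fin m, (if k < l then (2 : ℝ) ^ m / 8 else 0) := by
    rw [sum_lt]; ring
  rw [e2]
  refine sum_le_sum fun k _ => sum_le_sum fun l _ => ?_
  by_cases hkl : k < l
  · rw [if_pos hkl]
    simp only [hkl, true_and]
    have e3 : ∀ z : Z m, (if z k = false ∧ z l = false then (1 / 2 : ℝ) else 0) ≤
        ∑ z' : Z m, (if Cls k l z z' then (1 / 2 : ℝ) ^ ((l : ℕ) - k) else 0) := by
      intro z
      by_cases hz : z k = false ∧ z l = false
      · rw [if_pos hz, ← sum_filter, sum_const, nsmul_eq_mul]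
        have h1 := card_above hkl hz.1 hz.2
        have h2 : (0 : ℝ) < (1 / 2) ^ ((l : ℕ) - k) := by positivity
        have h3 : (1 / 2 : ℝ) ^ ((l : ℕ) - k) * 2 ^ ((l : ℕ) - k) = 1 := by
          rw [← mul_pow]; norm_num
        nlinarith [mul_le_mul_of_nonneg_left h1 h2.le]
      · rw [if_neg hz]
        refine sum_nonneg fun z' _ => ?_
        split_ifs
        · positivity
        · exact le_rfl
    refine le_trans ?_ (sum_le_sum fun z _ => e3 z)
    rw [← sum_filter, sum_const, nsmul_eq_mul]
    have := card_zero hkl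
    linarith
  · rw [if_neg hkl]
    refine sum_nonneg fun z _ => sum_nonneg fun z' _ => ?_
    rw [if_neg (fun h => hkl h.1)]

end Pool.Agent.H30BC
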